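import Pool.Agent.W500.FL.Stm

/-! FL-IRR: discriminants of irreducible polynomials over finite fields. -/

set_option autoImplicit false

namespace Pool.Agent.W822.FL

open Polynomial Pool.Agent.W500.FL Finset

/-- fixed points of Frobenius -/
theorem mem_of_pow {K L : Type} [Field K] [Fintype K] [Field L] [Algebra K L] {x : L}
    (hx : x ^ Fintype.card K = x) : ∃ c : K, algebraMap K L c = x := by
  classical
  by_contra h
  push Not at h
  have hq : 1 < Fintype.card K := Fintype.one_lt_card
  have hf : (X ^ Fintype.card K - X : L[X]).natDegree = Fintype.card K :=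
    FiniteField.X_pow_card_sub_X_natDegree_eq L hq
  have hf0 : (X ^ Fintype.card K - X : L[X]) ≠ 0 := FiniteField.X_pow_card_sub_X_ne_zero L hq
  have hZ : (insert x ((univ : Finset K).image (algebraMap K L))).card = Fintype.card K + 1 := by
    rw [card_insert_of_notMem, card_image_of_injective _ (algebraMap K L).injective, card_univ]
    intro h1
    obtain ⟨c, -, hc⟩ := mem_image.1 h1
    exact h c hc
  have h2 := card_le_degree_of_subset_roots (R := L) (p := X ^ Fintype.card K - X)
    (Z := insert x ((univ : Finset K).image (algebraMap K L))) (by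
      intro y hy
      rw [mem_roots hf0, IsRoot, eval_sub, eval_pow, eval_X, sub_eq_zero]
      rw [Finset.mem_val, mem_insert, mem_image] at hy
      rcases hy with rfl | ⟨c, -, rfl⟩
      · exact hx
      · rw [← map_pow, FiniteField.pow_card])
  rw [hZ, hf] at h2
  omega

theorem disc_sq {L : Type} [Field L] (n : ℕ) (v : Fin n → L) :
    ∏ i, ∏ j ∈ ({i}ᶜ : Finset (Fin n)), (v i - v j) =
      (-1) ^ (n * (n - 1) / 2) * (Matrix.vandermonde v).det ^ 2 := by
  rw [← prod_prod_Ioi_mul_eq_prod_prod_off_diag (fun a b => v b - v a), Matrix.det_vandermonde]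
  have h1 : ∀ i j : Fin n, (v i - v j) * (v j - v i) = (-1) * (v j - v i) ^ 2 := by
    intro i j
    ring
  simp_rw [h1, prod_mul_distrib, prod_pow, prod_const]
  congr 1
  rw [prod_pow_eq_pow_sum]
  congr 1
  simp_rw [Fin.card_Ioi]
  rw [Fin.sum_univ_eq_sum_range (fun i => n - 1 - i) n, ← sum_range_id]
  exact sum_range_reflect (fun i => i) n

theorem nodal_eq {L : Type} [Field L] (n : ℕ) (v : Fin n → L) (hv : Function.Injective v)
    (Q : L[X]) (hQ : Q.Monic) (hn : Q.natDegree = n) (hr : ∀ i, Q.eval (v i) = 0) :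
    Q = Lagrange.nodal univ v := by
  apply eq_of_monic_of_dvd_of_natDegree_le (Lagrange.nodal_monic) hQ
  · rw [Lagrange.nodal]
    apply Finset.prod_dvd_of_coprime
    · intro i _ j _ hij
      exact pairwise_coprime_X_sub_C hv hij
    · intro i _
      rw [dvd_iff_isRoot]
      exact hr i
  · rw [Lagrange.natDegree_nodal, card_univ, Fintype.card_fin, hn]

theorem res_eq {L : Type} [Field L] (n : ℕ) (v : Fin n → L) (m : ℕ) (Q : L[X])
    (hQ : Q = Lagrange.nodal univ v) (hm : (derivative Q).natDegree ≤ m) :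
    resultant Q (derivative Q) Q.natDegree m =
      (-1) ^ (n * (n - 1) / 2) * (Matrix.vandermonde v).det ^ 2 := by
  classical
  have hmon : Q.Monic := by
    rw [hQ]
    exact Lagrange.nodal_monic
  have hroots : Q.roots = univ.val.map v := by
    rw [hQ, Lagrange.nodal]
    exact roots_multiset_prod_X_sub_C (univ.val.map v) |> fun h => by
      rw [Multiset.map_map] at h
      exact h
  have hsp : Q.Splits := by
    rw [hQ, Lagrange.nodal]
    exact Splits.prod fun i _ => Splits.X_sub_C _
  rw [resultant_eq_prod_eval _ _ _ hm hsp, hmon.leadingCoeff, one_pow, one_mul, hroots,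
    Multiset.map_map, ← disc_sq]
  apply prod_congr rfl
  intro i _
  have h1 : eval (v i) (derivative Q) = eval (v i) (Lagrange.nodal (univ.erase i) v) := by
    rw [hQ]
    exact Lagrange.eval_nodal_derivative_eval_node_eq (mem_univ i)
  show eval (v i) (derivative Q) = _
  rw [h1, Lagrange.eval_nodal]
  congr 1
  ext j
  simp

/-- rotation of the conjugates -/
theorem det_rot {L : Type} [Field L] (n : ℕ) (hn : 0 < n) (v : Fin n → L) (w : ℕ → L)
    (hv : ∀ i : Fin n, v i = w i) (hw : w n = w 0) :
    (Matrix.vandermonde (fun i : Fin n => w (i + 1))).det =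
      (-1) ^ (n - 1) * (Matrix.vandermonde v).det := by
  obtain ⟨m, rfl⟩ : ∃ m, n = m + 1 := ⟨n - 1, by omega⟩
  have h1 : (fun i : Fin (m + 1) => w (i + 1)) = v ∘ (finRotate (m + 1)) := by
    funext i
    rw [Function.comp_apply, hv, coe_finRotate]
    split_ifs with h
    · rw [h, Fin.val_last, hw]
    · rfl
  have h2 : Matrix.vandermonde (v ∘ (finRotate (m + 1))) =
      (Matrix.vandermonde v).submatrix (finRotate (m + 1)) id := by
    ext i j
    simp [Matrix.vandermonde]
  rw [h1, h2, Matrix.det_permute, sign_finRotate]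
  simp

theorem main : S_IRR := by
  intro K _ _ _ hK P hP hirr
  have : Fact (Irreducible P) := ⟨hirr⟩
  set n := P.natDegree with hn
  have hn0 : 0 < n := hirr.natDegree_pos
  have hfin : Module.Finite K (AdjoinRoot P) := (AdjoinRoot.powerBasis hP.ne_zero).finite
  have hfinL : Finite (AdjoinRoot P) := Module.finite_of_finite K
  have : Fintype (AdjoinRoot P) := Fintype.ofFinite _
  have hrank : Module.finrank K (AdjoinRoot P) = n := by
    rw [(AdjoinRoot.powerBasis hP.ne_zero).finrank, AdjoinRoot.powerBasis_dim]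
  have hcard : Fintype.card (AdjoinRoot P) = Fintype.card K ^ n := by
    rw [← hrank]
    exact Module.card_eq_pow_finrank
  set q := Fintype.card K with hq
  let w : ℕ → AdjoinRoot P := fun i => AdjoinRoot.root P ^ (q ^ i)
  let v : Fin n → AdjoinRoot P := fun i => w i
  let φ : AdjoinRoot P →ₐ[K] AdjoinRoot P := FiniteField.frobeniusAlgHom K (AdjoinRoot P)
  have hφ : ∀ x, φ x = x ^ q := fun x => rfl
  have hφw : ∀ i, φ (w i) = w (i + 1) := by
    intro i
    rw [hφ]
    show (AdjoinRoot.root P ^ (q ^ i)) ^ q = AdjoinRoot.root P ^ (q ^ (i + 1))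
    rw [← pow_mul, pow_succ]
  have hwn : w n = w 0 := by
    show AdjoinRoot.root P ^ (q ^ n) = AdjoinRoot.root P ^ (q ^ 0)
    rw [← hcard, FiniteField.pow_card, pow_zero, pow_one]
  have hpow : ∀ (i : ℕ) (x : AdjoinRoot P), (φ ^ i) x = x ^ (q ^ i) := by
    intro i x
    rw [AlgHom.coe_pow, FiniteField.coe_frobeniusAlgHom, pow_iterate]
  have hinj : Function.Injective v := by
    intro i j hij
    have h1 : φ ^ (i : ℕ) = φ ^ (j : ℕ) := by
      apply AdjoinRoot.algHom_ext
      rw [hpow, hpow]
      exact hij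
    have h2 := (FiniteField.bijective_frobeniusAlgHom_pow K (AdjoinRoot P)).1
      (a₁ := ⟨i, by rw [hrank]; exact i.2⟩) (a₂ := ⟨j, by rw [hrank]; exact j.2⟩) h1
    exact Fin.ext (Fin.mk.inj_iff.1 h2)
  have hroot : ∀ i : Fin n, (P.map (algebraMap K (AdjoinRoot P))).eval (v i) = 0 := by
    intro i
    have h1 : v i = (φ ^ (i : ℕ)) (AdjoinRoot.root P) := (hpow _ _).symm
    rw [h1, eval_map_algebraMap, aeval_algHom_apply]
    have h2 : aeval (AdjoinRoot.root P) P = 0 := by
      rw [AdjoinRoot.aeval_eq, AdjoinRoot.mk_self]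
    rw [h2, map_zero]
  have hnod := nodal_eq n v hinj (P.map (algebraMap K (AdjoinRoot P))) (hP.map _)
    (by rw [natDegree_map]) hroot
  set δ := (Matrix.vandermonde v).det with hδ
  have hδ0 : δ ≠ 0 := Matrix.det_vandermonde_ne_zero_iff.2 hinj
  have hres : algebraMap K (AdjoinRoot P) (resultant P (derivative P)) =
      (-1) ^ (n * (n - 1) / 2) * δ ^ 2 := by
    rw [← resultant_map_map, ← derivative_map]
    have h1 := res_eq n v (derivative P).natDegree (P.map (algebraMap K (AdjoinRoot P))) hnod
      (by rw [derivative_map, natDegree_map])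
    rw [natDegree_map] at h1
    exact h1
  have hφδ : δ ^ q = (-1) ^ (n - 1) * δ := by
    rw [← hφ, ← det_rot n hn0 v w (fun i => rfl) hwn, hδ, AlgHom.map_det]
    congr 1
    ext i j
    simp only [Matrix.vandermonde, Matrix.map_apply, AlgHom.mapMatrix_apply, Matrix.of_apply,
      map_pow]
    rw [← hφw]
  have hchar : ringChar (AdjoinRoot P) ≠ 2 := by
    rwa [← Algebra.ringChar_eq K (AdjoinRoot P)]
  set r := resultant P (derivative P) with hr
  set s : K := (-1) ^ (n * (n - 1) / 2) * r with hs
  have hsδ : algebraMap K (AdjoinRoot P) s = δ ^ 2 := by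
    rw [hs, map_mul, hres, map_pow, map_neg, map_one, ← mul_assoc, ← mul_pow]
    simp
  have hs0 : s ≠ 0 := by
    intro h
    rw [h, map_zero] at hsδ
    exact hδ0 (pow_eq_zero_iff (two_ne_zero) |>.1 hsδ.symm)
  have hsq : quadraticChar K s = - (-1) ^ n := by
    rcases Nat.even_or_odd n with he | ho
    · rw [he.neg_one_pow]
      rw [quadraticChar_neg_one_iff_not_isSquare]
      rintro ⟨c, hc⟩
      rw [hc, map_mul] at hsδ
      have h1 : δ = algebraMap K _ c ∨ δ = - algebraMap K _ c := by
        apply sq_eq_sq_iff_eq_or_eq_neg.1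
        rw [← hsδ, sq]
      have h2 : δ ^ q = δ := by
        rcases h1 with h1 | h1
        · rw [h1, ← map_pow, FiniteField.pow_card]
        · rw [h1, ← map_neg, ← map_pow, FiniteField.pow_card]
      have h3 : Odd (n - 1) := by
        rcases he with ⟨k, hk⟩
        exact ⟨k - 1, by omega⟩
      rw [hφδ, h3.neg_one_pow] at h2
      have h4 : (2 : AdjoinRoot P) * δ = 0 := by
        linear_combination -h2
      rcases mul_eq_zero.1 h4 with h5 | h5
      · exact Ring.two_ne_zero hchar h5
      · exact hδ0 h5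
    · rw [ho.neg_one_pow, neg_neg, quadraticChar_one_iff_isSquare hs0]
      have h3 : Even (n - 1) := by
        rcases ho with ⟨k, hk⟩
        exact ⟨k, by omega⟩
      rw [h3.neg_one_pow, one_mul] at hφδ
      obtain ⟨c, hc⟩ := mem_of_pow hφδ
      refine ⟨c, ?_⟩
      apply (algebraMap K (AdjoinRoot P)).injective
      rw [hsδ, map_mul, hc, sq]
  have hrs : r = (-1) ^ (n * (n - 1) / 2) * s := by
    rw [hs, ← mul_assoc, ← mul_pow]
    simp
  show quadraticChar K r = _
  rw [hrs, map_mul, map_pow, hsq]
  ring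

end Pool.Agent.W822.FL
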